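import Mathlib
import Pool.Agent.Helper903.ES.Main

/-!
# MP_dd155b_co: multicolour Ramsey numbers of trees (Erdos-Graham)

We prove `r(T; k) ≤ k (m - 2) + 2` for every tree `T` on `m ≥ 2` vertices and every number `k ≥ 1`
of colours.  In particular `r(T; k) ≤ (1 + o(1)) m k`, uniformly over all trees on `m` vertices.

The proof: one of the `k` colour classes of `K_N`, `N ≥ k (m - 2) + 2`, has average degree larger
than `m - 2`, and the kernel-checked Erdos-Sos theorem of the library file
`Pool.Agent.Helper903.ES.Main` gives the tree.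
-/

set_option autoImplicit false

namespace Pool.Agent.Results.MP_dd155b_co.ErdosGraham

/-- Every colouring `c` of the edges of the complete graph on `r` vertices with `k` colours
contains a monochromatic subgraph isomorphic to `H`: there are a colour `i` and an injective map
`f` from the vertices of `H` to the `r` vertices such that every edge of `H` is mapped to an edge
of colour `i`. -/
def Arrows {W : Type} (H : SimpleGraph W) (k r : ℕ) : Prop :=
  ∀ c : Sym2 (Fin r) → Fin k, ∃ i : Fin k, ∃ f : W ↪ Fin r,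
    ∀ a b : W, H.Adj a b → c s(f a, f b) = i

/-- The `k`-colour Ramsey number of `H`: the least `r` such that every colouring of the edges of
`K_r` with `k` colours contains a monochromatic copy of `H`. -/
noncomputable def ramsey {W : Type} (H : SimpleGraph W) (k : ℕ) : ℕ :=
  sInf {r | Arrows H k r}

/-- one colour class -/
def cls {k r : ℕ} (c : Sym2 (Fin r) → Fin k) (i : Fin k) : SimpleGraph (Fin r) where
  Adj x y := x ≠ y ∧ c s(x, y) = i
  symm := ⟨fun x y h => ⟨h.1.symm, by rw [Sym2.eq_swap]; exact h.2⟩⟩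
  loopless := ⟨fun x h => h.1 rfl⟩

open Classical in
theorem sum_cls {k r : ℕ} (c : Sym2 (Fin r) → Fin k) :
    ∑ i : Fin k, (cls c i).edgeFinset.card = r * (r - 1) / 2 := by
  have h1 : ∀ i : Fin k, (cls c i).edgeFinset =
      (⊤ : SimpleGraph (Fin r)).edgeFinset.filter (fun e => c e = i) := by
    intro i
    ext e
    induction e with
    | _ x y =>
      rw [SimpleGraph.mem_edgeFinset, SimpleGraph.mem_edgeSet, Finset.mem_filter,
        SimpleGraph.mem_edgeFinset, SimpleGraph.mem_edgeSet, SimpleGraph.top_adj]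
      rfl
  have h2 := Finset.card_eq_sum_card_fiberwise (s := (⊤ : SimpleGraph (Fin r)).edgeFinset)
    (t := (Finset.univ : Finset (Fin k))) (f := c) (fun _ _ => by simp)
  have h3 : (⊤ : SimpleGraph (Fin r)).edgeFinset.card = r * (r - 1) / 2 := by
    have := SimpleGraph.card_edgeFinset_top_eq_card_choose_two (V := Fin r)
    rw [Fintype.card_fin, Nat.choose_two_right] at this
    convert this
  rw [← h3, h2]
  exact Finset.sum_congr rfl fun i _ => by rw [h1]

theorem arrows_of_le {m k N : ℕ} (_hk : 1 ≤ k) (hm : 2 ≤ m) (T : SimpleGraph (Fin m))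
    (hT : T.IsTree) (hN : k * (m - 2) + 2 ≤ N) : Arrows T k N := by
  classical
  intro c
  have hex : ∃ i : Fin k, (m - 1 - 1) * Fintype.card (Fin N) < 2 * (cls c i).edgeFinset.card := by
    by_contra hcon
    push Not at hcon
    have h1 : ∑ i : Fin k, 2 * (cls c i).edgeFinset.card ≤ ∑ _i : Fin k, (m - 1 - 1) * N := by
      apply Finset.sum_le_sum
      intro i _
      have := hcon i
      rwa [Fintype.card_fin] at this
    rw [← Finset.mul_sum, sum_cls, Finset.sum_const, Finset.card_univ, Fintype.card_fin,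
      smul_eq_mul] at h1
    have h2 : 2 * (N * (N - 1) / 2) = N * (N - 1) := by
      exact Nat.two_mul_div_two_of_even (Nat.even_mul_pred_self N)
    rw [h2] at h1
    have h3 : k * ((m - 1 - 1) * N) = N * (k * (m - 2)) := by
      have : m - 1 - 1 = m - 2 := by omega
      rw [this]; ring
    rw [h3] at h1
    have hN0 : 0 < N := by omega
    have h4 := Nat.le_of_mul_le_mul_left h1 hN0
    omega
  obtain ⟨i, hi⟩ := hex
  obtain ⟨f, hf⟩ := ES903.erdos_sos (cls c i) (m - 1) hi T hT (by rw [Fintype.card_fin]; omega)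
  exact ⟨i, f, fun a b hab => (hf a b hab).2⟩

/-- **Erdos-Graham question.**  Part 1: for every `k ≥ 1`, every tree `T` on `m ≥ 2` vertices and
every `N ≥ k (m - 2) + 2`, every `k`-colouring of the edges of `K_N` contains a monochromatic
copy of `T`; so `r(T; k)` exists and is at most `k (m - 2) + 2`.
Part 2 is the question as posed, `r(T_m; k) ≤ (1 + o(1)) m k` uniformly over all trees. -/
theorem result :
    (∀ k m : ℕ, 1 ≤ k → 2 ≤ m → ∀ T : SimpleGraph (Fin m), T.IsTree →
      (∀ N : ℕ, k * (m - 2) + 2 ≤ N → Arrows T k N) ∧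
      Arrows T k (ramsey T k) ∧ ramsey T k ≤ k * (m - 2) + 2) ∧
    (∀ k : ℕ, 2 ≤ k → ∀ ε : ℝ, 0 < ε → ∃ m₀ : ℕ, ∀ m : ℕ, m₀ ≤ m →
      ∀ T : SimpleGraph (Fin m), T.IsTree →
        Arrows T k (ramsey T k) ∧ (ramsey T k : ℝ) ≤ (1 + ε) * k * m) := by
  have key : ∀ k m : ℕ, 1 ≤ k → 2 ≤ m → ∀ T : SimpleGraph (Fin m), T.IsTree →
      (∀ N : ℕ, k * (m - 2) + 2 ≤ N → Arrows T k N) ∧
      Arrows T k (ramsey T k) ∧ ramsey T k ≤ k * (m - 2) + 2 := by
    intro k m hk hm T hT
    have h1 : ∀ N : ℕ, k * (m - 2) + 2 ≤ N → Arrows T k N := fun N hN =>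
      arrows_of_le hk hm T hT hN
    have h2 : k * (m - 2) + 2 ∈ {r | Arrows T k r} := h1 _ le_rfl
    exact ⟨h1, Nat.sInf_mem ⟨_, h2⟩, Nat.sInf_le h2⟩
  refine ⟨key, ?_⟩
  intro k hk ε hε
  refine ⟨2, fun m hm T hT => ?_⟩
  obtain ⟨-, h2, h3⟩ := key k m (by omega) hm T hT
  refine ⟨h2, ?_⟩
  have h4 : ramsey T k ≤ k * m := by
    refine h3.trans ?_
    obtain ⟨j, rfl⟩ : ∃ j, m = j + 2 := ⟨m - 2, by omega⟩
    simp only [Nat.add_sub_cancel]
    nlinarith
  have h5 : (ramsey T k : ℝ) ≤ (k : ℝ) * m := by exact_mod_cast h4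
  have h6 : (0 : ℝ) ≤ (k : ℝ) * m := by positivity
  nlinarith [mul_nonneg hε.le h6]

end Pool.Agent.Results.MP_dd155b_co.ErdosGraham
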